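import Pool.Agent.R801.HF.Fence

/-!
# Coxeter-element independence of homomesy for antichain toggles on fences

For every fence, any two Coxeter elements of the antichain toggle group have the same `c`-mesic
and the same orbomesic functions among the linear combinations of the indicators `χ_y`.
-/

namespace Pool.Agent.Results.MP_caa0a9_co.CoxeterIndependence

open Pool.Agent.R801.HF

theorem result : ∀ (α : Type) [Fintype α] [DecidableEq α] [PartialOrder α] (n : ℕ)
    (x : Fin n ≃ α) (d : ℕ → Bool), IsFence n x d →
    ∀ l l' : List α, IsWord l → IsWord l' → ∀ a : α → ℝ,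
      (∀ c : ℝ, Mesic (cox l) (lin a) c ↔ Mesic (cox l') (lin a) c) ∧
        (Orbomesic (cox l) (lin a) ↔ Orbomesic (cox l') (lin a)) :=
  fun _ _ _ _ n x d h l l' hl hl' a => Pool.Agent.R801.HF.main n x d h l l' hl hl' a

end Pool.Agent.Results.MP_caa0a9_co.CoxeterIndependence
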